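import Pool.Agent.W5h26.OS.Main

/-!
# Systems of primes: one-sided bounds outside few integers, under polynomial growth
-/

set_option autoImplicit false

open MeasureTheory Filter Topology Set
open scoped ENNReal
open Pool.Agent.TH942.LS (Dat)
open Pool.Agent.TH942.SL
open Pool.Agent.TH942.ES
open Pool.Agent.TH270.MS
open Pool.Agent.TH270.RS (cS' dat' DD_neg)
open Pool.Agent.W263.BSD (LInt lap lapC lapC_ofReal lapC_differentiableAt)
open Pool.Agent.W5h26.ES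
open Pool.Agent.W5h26.ML

namespace Pool.Agent.W5h26.OS

variable {X : Type} {d : ℕ} {N : X → ℕ} {α : X → Fin d → ℂ} {e : X × ℕ → ℕ}
  {Ψ G₀ : ℂ → ℂ} {k κ : ℕ} {η C : ℝ}

/-- the exceptional set of the partial sums, power bounds -/
theorem thin_pow {M : ℝ}
    (hM : ∀ u : ℝ, 0 ≤ u → |Sh (lamS N e) (cS' N α e) u - LP N α (⌊Real.exp u⌋₊ : ℝ)| ≤ M)
    {l l' θ t : ℝ} (hl : l' < l) (hθ : 0 ≤ θ) (ht : |t| = 1)
    (h : Out l fun n => t * LP N α n ≤ (n : ℝ) ^ θ) :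
    Thin {u | M + Real.exp (θ * u) < t * Sh (lamS N e) (cS' N α e) u} l' := by
  refine (thin_of_out h hl).mono ?_
  filter_upwards [eventually_ge_atTop 1] with n hn
  rintro u ⟨h1, h2, -⟩ hcon
  have hu : 0 ≤ u := (Nat.cast_nonneg n).trans h2.le
  obtain ⟨f1, f2, f3⟩ := floor_bounds hu
  have f4 : (1 : ℝ) ≤ ⌊Real.exp u⌋₊ := by exact_mod_cast f3
  have q1 : (⌊Real.exp u⌋₊ : ℝ) ^ θ ≤ Real.exp (θ * u) := by
    rw [mul_comm θ u, Real.exp_mul]
    exact Real.rpow_le_rpow (by linarith) f1 hθ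
  have h3 : |t * Sh (lamS N e) (cS' N α e) u - t * LP N α (⌊Real.exp u⌋₊ : ℝ)| ≤ M := by
    rw [← mul_sub, abs_mul, ht, one_mul]
    exact hM u hu
  have h4 := (abs_le.1 h3).2
  have h5 : M + Real.exp (θ * u) < t * Sh (lamS N e) (cS' N α e) u := h1
  have h6 : t * LP N α (⌊Real.exp u⌋₊ : ℝ) ≤ (⌊Real.exp u⌋₊ : ℝ) ^ θ := hcon
  linarith

/-- the exceptional set of the partial sums, powers of the logarithm -/
theorem thin_log {M : ℝ}
    (hM : ∀ u : ℝ, 0 ≤ u → |Sh (lamS N e) (cS' N α e) u - LP N α (⌊Real.exp u⌋₊ : ℝ)| ≤ M)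
    {l l' ρ q t : ℝ} (hl : l' < l) (ht : |t| = 1)
    (h : Out l fun n => t * LP N α n ≤ t * (ρ * Real.log (Real.log n)) + q) :
    Thin {u | M + q + |ρ| < t * (Sh (lamS N e) (cS' N α e) u - ρ * Real.log u)} l' := by
  refine (thin_of_out h hl).mono ?_
  filter_upwards [eventually_ge_atTop 2] with n hn
  rintro u ⟨h1, h2, -⟩ hcon
  have hn2 : (2 : ℝ) ≤ n := by exact_mod_cast hn
  have hu : 0 ≤ u := (Nat.cast_nonneg n).trans h2.le
  have hll := loglog_floor (u := u) (by linarith)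
  have h3 : |t * Sh (lamS N e) (cS' N α e) u - t * LP N α (⌊Real.exp u⌋₊ : ℝ)| ≤ M := by
    rw [← mul_sub, abs_mul, ht, one_mul]
    exact hM u hu
  have h4 := (abs_le.1 h3).2
  have h5 : M + q + |ρ| < t * (Sh (lamS N e) (cS' N α e) u - ρ * Real.log u) := h1
  have h6 : t * LP N α (⌊Real.exp u⌋₊ : ℝ) ≤
      t * (ρ * Real.log (Real.log (⌊Real.exp u⌋₊ : ℝ))) + q := hcon
  have h7 : |t * (ρ * (Real.log (Real.log (⌊Real.exp u⌋₊ : ℝ)) - Real.log u))| ≤ |ρ| := by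
    rw [abs_mul, ht, one_mul, abs_mul]
    calc |ρ| * _ ≤ |ρ| * 1 := mul_le_mul_of_nonneg_left hll (abs_nonneg ρ)
      _ = _ := mul_one _
  have h8 := (abs_le.1 h7).2
  rw [mul_sub] at h5
  have h9 : t * (ρ * (Real.log (Real.log (⌊Real.exp u⌋₊ : ℝ)) - Real.log u)) =
      t * (ρ * Real.log (Real.log (⌊Real.exp u⌋₊ : ℝ))) - t * (ρ * Real.log u) := by ring
  rw [h9] at h8
  linarith

lemma type_exp {M θ x : ℝ} (hθ : 0 ≤ θ) (hx : θ < x) :
    IntegrableOn (fun u => (M + Real.exp (θ * u)) * Real.exp (-(x * u))) (Ioi 0) := by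
  have h1 := exp_int (a := 0) (x := x) (by linarith) M
  have h2 := exp_int hx 1
  refine (h1.add h2).congr_fun (fun u _ => ?_) measurableSet_Ioi
  simp only [Pi.add_apply, zero_mul, Real.exp_zero, mul_one, one_mul]
  ring

/-- **Upper bounds outside few integers: zero-free half-planes.** -/
theorem grow_free_upper (H : Mc N α Ψ G₀ k κ η C) {l θ : ℝ} (hl : 0 < l) (hθ : 0 ≤ θ)
    (h : ∀ ε : ℝ, 0 < ε → Out l fun n => LP N α n ≤ (n : ℝ) ^ (θ + ε)) :
    ∀ s : ℂ, θ < s.re → G₀ s ≠ 0 := by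
  obtain ⟨e, g, p, he, Q⟩ := H.cn
  obtain ⟨M, hM0, hM⟩ := sh_lp H.E he
  intro s hs
  set ε : ℝ := (s.re - θ) / 2 with hε
  have hε0 : 0 < ε := by rw [hε]; linarith
  have h1 := thin_pow hM (l := l) (l' := l / 2) (θ := θ + ε) (t := 1) (by linarith) (by linarith)
    abs_one (by simpa only [one_mul] using h ε hε0)
  simp only [one_mul] at h1
  refine quasi_upper Q (l := l / 2) (θ := θ + ε) (by linarith) (by linarith)
    (M := fun u => M + Real.exp ((θ + ε) * u)) (by fun_prop) (fun u => by positivity)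
    (fun x hx => type_exp (by linarith) hx) h1 s ?_
  rw [hε]
  linarith

/-- **Lower bounds outside few integers: zero-free half-planes.** -/
theorem grow_free_lower (H : Mc N α Ψ G₀ k κ η C) {l θ : ℝ} (hl : 0 < l) (hθ : 0 ≤ θ)
    (h : ∀ ε : ℝ, 0 < ε → Out l fun n => -(n : ℝ) ^ (θ + ε) ≤ LP N α n)
    (hreal : ∀ x : ℝ, θ < x → G₀ x ≠ 0) :
    ∀ s : ℂ, θ < s.re → G₀ s ≠ 0 := by
  obtain ⟨e, g, p, he, Q⟩ := H.cn
  obtain ⟨M, hM0, hM⟩ := sh_lp H.E he
  intro s hs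
  set ε : ℝ := (s.re - θ) / 2 with hε
  have hε0 : 0 < ε := by rw [hε]; linarith
  have h1 := thin_pow hM (l := l) (l' := l / 2) (θ := θ + ε) (t := -1) (by linarith) (by linarith)
    (by rw [abs_neg, abs_one])
    ((h ε hε0).mono (Eventually.of_forall fun n hn => by rw [neg_one_mul]; linarith))
  simp only [neg_one_mul] at h1
  refine quasi_lower Q (l := l / 2) (θ := θ + ε) (by linarith) (by linarith)
    (M := fun u => M + Real.exp ((θ + ε) * u)) (by fun_prop) (fun u => by positivity)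
    (fun x hx => type_exp (by linarith) hx) h1 (fun x hx => hreal x (by linarith)) s ?_
  rw [hε]
  linarith

theorem Mc.order_of (H : Mc N α Ψ G₀ k κ η C) {e : X × ℕ → ℕ} {g : ℂ → ℂ} {p : ℕ}
    (Q : Cn (lamS N e) (cS' N α e) (Real.log 2) 1 G₀ g k p κ η C) :
    analyticOrderAt G₀ 0 = p := by
  rw [H.ana.analyticOrderAt_eq_natCast]
  refine ⟨g, Q.hg, Q.hg0, ?_⟩
  filter_upwards [Q.near] with z hz
  rw [hz, sub_zero, smul_eq_mul]

/-- **Upper bounds outside few integers.** -/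
theorem grow_upper (H : Mc N α Ψ G₀ k κ η C) {l ρ q : ℝ} (hl : 0 < l)
    (h : Out l fun n => LP N α n ≤ ρ * Real.log (Real.log n) + q) :
    (∀ s : ℂ, 0 < s.re → G₀ s ≠ 0) ∧ ∀ p : ℕ, analyticOrderAt G₀ 0 = p → (p : ℝ) ≤ k + ρ := by
  obtain ⟨e, g, p, he, Q⟩ := H.cn
  obtain ⟨M, hM0, hM⟩ := sh_lp H.E he
  have h1 := thin_log hM (l := l) (l' := l / 2) (ρ := ρ) (q := q) (t := 1) (by linarith) abs_one
    (by simpa only [one_mul] using h)
  simp only [one_mul] at h1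
  obtain ⟨h2, h3⟩ := lead_upper Q (by linarith) h1
  refine ⟨h2, fun p' hp' => ?_⟩
  have h4 := Mc.order_of H Q
  have : p' = p := by
    rw [hp'] at h4
    exact_mod_cast h4
  rwa [this]

/-- **Lower bounds outside few integers.** -/
theorem grow_lower (H : Mc N α Ψ G₀ k κ η C) {l ρ q : ℝ} (hl : 0 < l)
    (h : Out l fun n => ρ * Real.log (Real.log n) - q ≤ LP N α n)
    (hreal : ∀ x : ℝ, 0 < x → G₀ x ≠ 0) :
    (∀ s : ℂ, 0 < s.re → G₀ s ≠ 0) ∧ ∀ p : ℕ, analyticOrderAt G₀ 0 = p → (k : ℝ) + ρ ≤ p := by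
  obtain ⟨e, g, p, he, Q⟩ := H.cn
  obtain ⟨M, hM0, hM⟩ := sh_lp H.E he
  have h1 := thin_log hM (l := l) (l' := l / 2) (ρ := ρ) (q := q) (t := -1) (by linarith)
    (by rw [abs_neg, abs_one]) (h.mono (Eventually.of_forall fun n hn => by linarith))
  have hneg : ∀ u : ℝ, (-1 : ℝ) * (Sh (lamS N e) (cS' N α e) u - ρ * Real.log u) =
      ρ * Real.log u - Sh (lamS N e) (cS' N α e) u := fun u => by ring
  simp only [hneg] at h1
  obtain ⟨h2, h3⟩ := lead_lower Q (by linarith) h1 hreal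
  refine ⟨h2, fun p' hp' => ?_⟩
  have h4 := Mc.order_of H Q
  have : p' = p := by
    rw [hp'] at h4
    exact_mod_cast h4
  rwa [this]

end Pool.Agent.W5h26.OS
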