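import Pool.Agent.W5h26.ML.Law
import Pool.Agent.W5h26.ES.Few

/-!
# One-sided bounds for the partial sums outside exponentially thin sets
-/

set_option autoImplicit false

open MeasureTheory Filter Topology Set
open Pool.Agent.TH942.LS (Dat)
open Pool.Agent.TH942.SL
open Pool.Agent.TH270.MS
open Pool.Agent.W263.BSD (LInt lap lapC lapC_ofReal lapC_differentiableAt)
open Pool.Agent.W5h26.ES
open Pool.Agent.W5h26.ML

namespace Pool.Agent.W5h26.OS

variable {lam c : ℕ → ℝ} {δ σ : ℝ} {G₀ g : ℂ → ℂ} {k p κ : ℕ} {η C : ℝ}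

/-- the structure without growth -/
theorem hy_of_cn (E : Cn lam c δ σ G₀ g k p κ η C) : Hy lam c δ σ G₀ g k p where
  D := E.D
  hG := fun s hs => E.hG s (by linarith [E.hη])
  hexp := E.hexp
  hg := E.hg
  hg0 := E.hg0
  near := E.near

/-- Landau's theorem for the positive part of the partial sums, in a half-plane -/
theorem half_upper (H : Hy lam c δ σ G₀ g k p) {a₀ : ℝ} (ha₀ : 0 ≤ a₀)
    (hint : ∀ x : ℝ, a₀ < x → LInt (Ep lam c 0 0) x) : ∀ s : ℂ, a₀ < s.re → G₀ s ≠ 0 := by
  have D := H.D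
  have hσ := D.σ0
  have key : ∀ a : ℝ, a₀ ≤ a → (∀ x : ℝ, a < x → G₀ x ≠ 0) →
      (∀ w > a, LInt (Em lam c 0 0) w) ∧
      ∀ w > a, lap (Em lam c 0 0) w = lap (Ep lam c 0 0) w - RL G₀ k 0 0 w := by
    intro a ha hne
    refine Pool.Agent.TH988.RB.landau_lap (em_meas D 0 0) (fun u _ => le_max_right _ _)
      (w1 := σ) (fun w hw => em_int D 0 0 hw)
      (g := fun w => lap (Ep lam c 0 0) w - RL G₀ k 0 0 w) (fun w hw => ?_) fun w hw _ => ?_
    · have hw0 : 0 < w := lt_of_le_of_lt (ha₀.trans ha) hw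
      exact (lap_an (ep_meas D 0 0) (a := a₀) (fun x hx => hint x hx) (lt_of_le_of_lt ha hw)).sub
        (H.RL_an 0 0 hw0 (hne w hw))
    · have h1 := (er_of 0 0 (ep_int D 0 0 hw) (em_int D 0 0 hw)).2
      rw [H.lap_eq 0 0 hw] at h1
      linarith
  have hreal : ∀ x : ℝ, a₀ < x → G₀ x ≠ 0 := by
    intro x₀ hx₀ h0
    obtain ⟨β, hβ1, hβ2, hβ3⟩ := H.largest (ha₀.trans_lt hx₀) h0
    have hβa : a₀ < β := hx₀.trans_le hβ1
    have hβ0 : 0 < β := ha₀.trans_lt hβa
    obtain ⟨-, h1⟩ := key β hβa.le hβ3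
    set m : ℝ → ℝ := fun x => x * lap (Ep lam c 0 0) x -
      (k * Real.log x + 0 * Real.log (1 - Real.exp (-x)) - 0) with hm
    have hmc : ContinuousAt m β := by
      have h2 := (lap_an (ep_meas D 0 0) (a := a₀) (fun x hx => hint x hx) hβa).continuousAt
      have h3 := Real.continuousAt_log hβ0.ne'
      have h4 : ContinuousAt (fun x : ℝ => Real.log (1 - Real.exp (-x))) β :=
        ContinuousAt.log (by fun_prop) (one_sub_exp_pos hβ0).ne'
      exact (continuousAt_id.mul h2).sub
        (((continuousAt_const.mul h3).add (continuousAt_const.mul h4)).sub continuousAt_const)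
    have h2 : ∀ x : ℝ, β < x → -Real.log ‖G₀ x‖ ≤ m x := by
      intro x hx
      have hx0 : 0 < x := hβ0.trans hx
      have h3 : 0 ≤ lap (Em lam c 0 0) x :=
        Pool.Agent.W263.BSD.lap_nonneg (fun u _ => le_max_right _ _) x
      have h4 := mul_nonneg hx0.le h3
      rw [h1 x hx] at h4
      have h5 : x * RL G₀ k 0 0 x = k * Real.log x - Real.log ‖G₀ x‖ +
          0 * Real.log (1 - Real.exp (-x)) - 0 := by
        unfold RL
        field_simp
      rw [mul_sub, h5] at h4
      rw [hm]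
      simp only
      linarith
    have h3 : Tendsto (fun x : ℝ => -Real.log ‖G₀ x‖) (𝓝[>] β) atTop := by
      have h4 : Tendsto (fun x : ℝ => ‖G₀ x‖) (𝓝[>] β) (𝓝[>] 0) := by
        rw [tendsto_nhdsWithin_iff]
        refine ⟨?_, ?_⟩
        · have h5 : ContinuousAt (fun x : ℝ => ‖G₀ x‖) β :=
            ((H.an hβ0).continuousAt.comp (f := fun x : ℝ => (x : ℂ))
              Complex.continuous_ofReal.continuousAt).norm
          have h6 : ‖G₀ β‖ = 0 := by rw [hβ2, norm_zero]
          have h7 := h5.tendsto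
          simp only [h6] at h7
          exact h7.mono_left nhdsWithin_le_nhds
        · filter_upwards [self_mem_nhdsWithin] with x hx
          exact norm_pos_iff.2 (hβ3 x hx)
      exact tendsto_neg_atBot_atTop.comp (Real.tendsto_log_nhdsGT_zero.comp h4)
    have h4 : ∀ᶠ x in 𝓝[>] β, m x < m β + 1 :=
      nhdsWithin_le_nhds (hmc.eventually (gt_mem_nhds (by linarith)))
    obtain ⟨x, ⟨h5, h6⟩, h7⟩ := ((h4.and (h3.eventually (eventually_gt_atTop (m β + 1)))).and
      self_mem_nhdsWithin).exists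
    have := h2 x h7
    linarith
  obtain ⟨h1, -⟩ := key a₀ le_rfl hreal
  refine nonvanish D ha₀ H.hG H.hexp fun x hx => ?_
  have h3 := (er_of 0 0 (hint x hx) (h1 x hx)).1
  have h4 : Er lam c 0 0 = Sh lam c := funext fun u => er_eq lam c u
  rwa [h4] at h3

/-- Landau's theorem for the negative part of the partial sums, in a half-plane without real zeros -/
theorem half_lower (H : Hy lam c δ σ G₀ g k p) {a₀ : ℝ} (ha₀ : 0 ≤ a₀)
    (hint : ∀ x : ℝ, a₀ < x → LInt (Em lam c 0 0) x) (hreal : ∀ x : ℝ, a₀ < x → G₀ x ≠ 0) :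
    ∀ s : ℂ, a₀ < s.re → G₀ s ≠ 0 := by
  have D := H.D
  have hσ := D.σ0
  obtain ⟨h1, -⟩ : (∀ w > a₀, LInt (Ep lam c 0 0) w) ∧
      ∀ w > a₀, lap (Ep lam c 0 0) w = lap (Em lam c 0 0) w + RL G₀ k 0 0 w := by
    refine Pool.Agent.TH988.RB.landau_lap (ep_meas D 0 0) (fun u _ => le_max_right _ _)
      (w1 := σ) (fun w hw => ep_int D 0 0 hw)
      (g := fun w => lap (Em lam c 0 0) w + RL G₀ k 0 0 w) (fun w hw => ?_) fun w hw _ => ?_
    · exact (lap_an (em_meas D 0 0) (a := a₀) (fun x hx => hint x hx) hw).add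
        (H.RL_an 0 0 (ha₀.trans_lt hw) (hreal w hw))
    · have h1 := (er_of 0 0 (ep_int D 0 0 hw) (em_int D 0 0 hw)).2
      rw [H.lap_eq 0 0 hw] at h1
      linarith
  refine nonvanish D ha₀ H.hG H.hexp fun x hx => ?_
  have h3 := (er_of 0 0 (h1 x hx) (hint x hx)).1
  have h4 : Er lam c 0 0 = Sh lam c := funext fun u => er_eq lam c u
  rwa [h4] at h3

/-- integrability of a one-sided part, split over a thin set -/
theorem part_int (E : Cn lam c δ σ G₀ g k p κ η C) {x₁ l θ : ℝ} (hx₁ : 0 < x₁) (hl : 0 < l)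
    (hne : ∀ s : ℂ, x₁ < s.re → G₀ s ≠ 0) {M : ℝ → ℝ} (hM : Measurable M) (hM0 : ∀ u, 0 ≤ M u)
    (hMi : ∀ x : ℝ, θ < x → IntegrableOn (fun u => M u * Real.exp (-(x * u))) (Ioi 0)) (t : ℝ)
    (hT : Thin {u | M u < t * Sh lam c u} l) {y : ℝ} (hy : max θ (x₁ - l / 2) < y) :
    LInt (fun u => max (t * Sh lam c u) 0) y := by
  have D := E.D
  have hm : Measurable fun u => t * Sh lam c u := (sh_meas D).const_mul t
  set B : Set ℝ := {u | M u < t * Sh lam c u} with hB
  have hBm : MeasurableSet B := measurableSet_lt hM hm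
  have hy1 : θ < y := (le_max_left _ _).trans_lt hy
  have hy2 : x₁ - l / 2 < y := (le_max_right _ _).trans_lt hy
  have hmm : Measurable fun u => max (t * Sh lam c u) 0 * Real.exp (-(y * u)) :=
    (hm.max measurable_const).mul (by fun_prop)
  have i1 : IntegrableOn (fun u => max (t * Sh lam c u) 0 * Real.exp (-(y * u))) (B ∩ Ioi 0) := by
    refine Integrable.mono' ((step E hx₁ hl hne hBm hT hy2).norm.const_mul |t|)
      hmm.aestronglyMeasurable (Eventually.of_forall fun u => ?_)
    rw [norm_mul, norm_mul, Real.norm_of_nonneg (Real.exp_pos _).le,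
      Real.norm_of_nonneg (le_max_right _ _), ← mul_assoc]
    refine mul_le_mul_of_nonneg_right ?_ (Real.exp_pos _).le
    rw [Real.norm_eq_abs, ← abs_mul]
    exact max_le (le_abs_self _) (abs_nonneg _)
  have i2 : IntegrableOn (fun u => max (t * Sh lam c u) 0 * Real.exp (-(y * u))) (Bᶜ ∩ Ioi 0) := by
    refine Integrable.mono' ((hMi y hy1).mono_set inter_subset_right)
      hmm.aestronglyMeasurable ?_
    filter_upwards [ae_restrict_mem (hBm.compl.inter measurableSet_Ioi)] with u hu
    rw [norm_mul, Real.norm_of_nonneg (Real.exp_pos _).le, Real.norm_of_nonneg (le_max_right _ _)]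
    refine mul_le_mul_of_nonneg_right ?_ (Real.exp_pos _).le
    have h1 : ¬ M u < t * Sh lam c u := hu.1
    exact max_le (not_lt.1 h1) (hM0 u)
  refine (i1.union i2).mono_set fun u hu => ?_
  by_cases h : u ∈ B
  · exact Or.inl ⟨h, hu⟩
  · exact Or.inr ⟨h, hu⟩

/-- the descent -/
theorem descend (E : Cn lam c δ σ G₀ g k p κ η C) {l θ : ℝ} (hl : 0 < l) (hθ : 0 ≤ θ)
    (hstep : ∀ x₁ : ℝ, 0 < x₁ → (∀ s : ℂ, x₁ < s.re → G₀ s ≠ 0) →
      ∀ s : ℂ, max θ (x₁ - l / 2) < s.re → G₀ s ≠ 0) : ∀ s : ℂ, θ < s.re → G₀ s ≠ 0 := by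
  have D := E.D
  have key : ∀ n : ℕ, ∀ s : ℂ, max θ (σ - n * (l / 2)) < s.re → G₀ s ≠ 0 := by
    intro n
    induction n with
    | zero =>
      intro s hs
      have hs1 : σ < s.re := by
        have := (le_max_right θ (σ - (0 : ℕ) * (l / 2))).trans_lt hs
        simpa using this
      rw [← E.hexp s hs1]
      have hs2 : s ≠ 0 := by
        rintro rfl
        rw [Complex.zero_re] at hs1
        linarith [D.σ0]
      exact mul_ne_zero (pow_ne_zero _ hs2) (Complex.exp_ne_zero _)
    | succ n ih =>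
      intro s hs
      rcases (hθ.trans (le_max_left θ (σ - n * (l / 2)))).eq_or_lt with h0 | h0
      · refine ih s ?_
        rw [← h0]
        exact lt_of_le_of_lt (hθ.trans (le_max_left _ _)) hs
      · refine hstep _ h0 ih s (lt_of_le_of_lt ?_ hs)
        push_cast
        refine max_le (le_max_left _ _) ?_
        rcases max_cases θ (σ - n * (l / 2)) with ⟨h1, -⟩ | ⟨h1, -⟩
        · rw [h1]
          exact le_trans (by linarith) (le_max_left _ _)
        · rw [h1]
          exact le_trans (by linarith) (le_max_right _ _)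
  obtain ⟨n, hn⟩ := exists_nat_ge (σ / (l / 2))
  intro s hs
  refine key n s ?_
  rw [div_le_iff₀ (by linarith)] at hn
  rw [max_eq_left (by linarith)]
  exact hs

/-- **No zeros to the right of `θ`** if the partial sums are at most `M`, a function of exponential
type `θ`, outside an exponentially thin set. -/
theorem quasi_upper (E : Cn lam c δ σ G₀ g k p κ η C) {l θ : ℝ} (hl : 0 < l)
    (hθ : 0 ≤ θ) {M : ℝ → ℝ} (hM : Measurable M) (hM0 : ∀ u, 0 ≤ M u)
    (hMi : ∀ x : ℝ, θ < x → IntegrableOn (fun u => M u * Real.exp (-(x * u))) (Ioi 0))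
    (hT : Thin {u | M u < Sh lam c u} l) :
    ∀ s : ℂ, θ < s.re → G₀ s ≠ 0 := by
  refine descend E hl hθ fun x₁ hx₁ hne => ?_
  refine half_upper (hy_of_cn E) (hθ.trans (le_max_left _ _)) fun y hy => ?_
  have h1 := part_int E hx₁ hl hne hM hM0 hMi 1 (by simpa only [one_mul] using hT) hy
  have h2 : Ep lam c 0 0 = fun u => max (1 * Sh lam c u) 0 := by
    funext u
    unfold Ep
    rw [er_eq, one_mul]
  rw [h2]
  exact h1

/-- **No zeros to the right of `θ`** if the partial sums are at least `-M`, a function of exponential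
type `θ`, outside an exponentially thin set, and if there are no real zeros. -/
theorem quasi_lower (E : Cn lam c δ σ G₀ g k p κ η C) {l θ : ℝ} (hl : 0 < l)
    (hθ : 0 ≤ θ) {M : ℝ → ℝ} (hM : Measurable M) (hM0 : ∀ u, 0 ≤ M u)
    (hMi : ∀ x : ℝ, θ < x → IntegrableOn (fun u => M u * Real.exp (-(x * u))) (Ioi 0))
    (hT : Thin {u | M u < -Sh lam c u} l) (hreal : ∀ x : ℝ, θ < x → G₀ x ≠ 0) :
    ∀ s : ℂ, θ < s.re → G₀ s ≠ 0 := by
  refine descend E hl hθ fun x₁ hx₁ hne => ?_
  refine half_lower (hy_of_cn E) (hθ.trans (le_max_left _ _)) (fun y hy => ?_) fun x hx =>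
    hreal x ((le_max_left _ _).trans_lt hx)
  have h1 := part_int E hx₁ hl hne hM hM0 hMi (-1) (by simpa only [neg_one_mul] using hT) hy
  have h2 : Em lam c 0 0 = fun u => max (-1 * Sh lam c u) 0 := by
    funext u
    unfold Em
    rw [er_eq, neg_one_mul]
  rw [h2]
  exact h1

/-- `1 + |q| + |r| |u|` is of exponential type `0` -/
theorem type_zero (r q : ℝ) {x : ℝ} (hx : 0 < x) :
    IntegrableOn (fun u => (1 + |q| + |r| * |u|) * Real.exp (-(x * u))) (Ioi 0) := by
  have i1 : IntegrableOn (fun u : ℝ => (1 + |q|) * Real.exp (-x * u)) (Ioi 0) :=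
    (integrableOn_exp_mul_Ioi (by linarith) 0).const_mul _
  have i2 : IntegrableOn (fun u : ℝ => |r| * (2 / x * Real.exp (-(x / 2) * u))) (Ioi 0) :=
    ((integrableOn_exp_mul_Ioi (by linarith) 0).const_mul _).const_mul _
  refine Integrable.mono' (i1.add i2) (by fun_prop) ?_
  filter_upwards [ae_restrict_mem measurableSet_Ioi] with u hu
  have hu0 : (0 : ℝ) < u := hu
  rw [Real.norm_of_nonneg (by positivity), abs_of_pos hu0]
  simp only [Pi.add_apply]
  have e1 : u ≤ 2 / x * Real.exp (x / 2 * u) := by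
    have := Real.add_one_le_exp (x / 2 * u)
    have h2 : 2 / x * (x / 2 * u) = u := by field_simp
    have h3 : 2 / x * (x / 2 * u) ≤ 2 / x * Real.exp (x / 2 * u) :=
      mul_le_mul_of_nonneg_left (by linarith) (by positivity)
    linarith
  have e2 : Real.exp (x / 2 * u) * Real.exp (-(x * u)) = Real.exp (-(x / 2) * u) := by
    rw [← Real.exp_add]
    congr 1
    ring
  have e3 : |r| * u * Real.exp (-(x * u)) ≤ |r| * (2 / x * Real.exp (-(x / 2) * u)) := by
    rw [← e2]
    calc |r| * u * Real.exp (-(x * u)) ≤ |r| * (2 / x * Real.exp (x / 2 * u)) *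
          Real.exp (-(x * u)) := by gcongr
      _ = _ := by ring
  have e4 : Real.exp (-(x * u)) = Real.exp (-x * u) := by
    congr 1
    ring
  calc (1 + |q| + |r| * u) * Real.exp (-(x * u)) =
      (1 + |q|) * Real.exp (-(x * u)) + |r| * u * Real.exp (-(x * u)) := by ring
    _ ≤ _ := by
      rw [e4] at e3 ⊢
      gcongr

/-- the mean law from a bound outside a set over which the function is integrable -/
theorem mean_thin {f : ℝ → ℝ} (hf : ∀ T : ℝ, 1 ≤ T → IntegrableOn f (Ioc 1 T)) {B : Set ℝ}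
    (hB : MeasurableSet B) {q : ℝ} (h1 : IntegrableOn (fun u => max (f u) 0) (B ∩ Ioi 1))
    (h2 : ∀ u : ℝ, 1 < u → u ∉ B → f u ≤ q) :
    ∀ᶠ T : ℝ in atTop, ∫ u in (1 : ℝ)..T, max (f u) 0 ≤ (|q| + 1) * T := by
  set C₁ : ℝ := ∫ u in B ∩ Ioi 1, max (f u) 0 with hC₁
  filter_upwards [eventually_ge_atTop C₁, eventually_ge_atTop 1] with T hT hT1
  have j1 : IntegrableOn (fun u => max (f u) 0) (Ioc 1 T) := (hf T hT1).pos_part
  rw [intervalIntegral.integral_of_le hT1]
  have e2 : ∫ u in Ioc 1 T, max (f u) 0 =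
      (∫ u in Ioc 1 T ∩ B, max (f u) 0) + ∫ u in Ioc 1 T ∩ Bᶜ, max (f u) 0 := by
    rw [← integral_inter_add_sdiff hB j1]
    rfl
  rw [e2]
  have e3 : ∫ u in Ioc 1 T ∩ B, max (f u) 0 ≤ C₁ := by
    refine setIntegral_mono_set h1 (Eventually.of_forall fun u => le_max_right _ _) ?_
    refine LE.le.eventuallyLE ?_
    rintro u ⟨h4, h5⟩
    exact ⟨h5, h4.1⟩
  have e4 : ∫ u in Ioc 1 T ∩ Bᶜ, max (f u) 0 ≤ |q| * T := by
    have e0 : volume (Ioc 1 T ∩ Bᶜ) ≠ ⊤ :=
      (lt_of_le_of_lt (measure_mono inter_subset_left) (by simp)).ne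
    calc ∫ u in Ioc 1 T ∩ Bᶜ, max (f u) 0 ≤ ∫ _ in Ioc 1 T ∩ Bᶜ, |q| := by
          refine setIntegral_mono_on (j1.mono_set inter_subset_left) (integrableOn_const e0)
            (measurableSet_Ioc.inter hB.compl) fun u hu => ?_
          exact max_le ((h2 u hu.1.1 hu.2).trans (le_abs_self q)) (abs_nonneg q)
      _ = (volume (Ioc 1 T ∩ Bᶜ)).toReal * |q| := by
          rw [setIntegral_const, smul_eq_mul]
          rfl
      _ ≤ T * |q| := by
          refine mul_le_mul_of_nonneg_right ?_ (abs_nonneg q)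
          have h4 : volume (Ioc 1 T ∩ Bᶜ) ≤ volume (Ioc 1 T) := measure_mono inter_subset_left
          have h5 := ENNReal.toReal_mono (by simp) h4
          rw [Real.volume_Ioc, ENNReal.toReal_ofReal (by linarith)] at h5
          linarith
      _ = _ := mul_comm _ _
  linarith

/-- the deviation is integrable over thin sets, if there are no zeros -/
theorem dev_thin_int (E : Cn lam c δ σ G₀ g k p κ η C) {l : ℝ} (hl : 0 < l)
    (hne : ∀ s : ℂ, 0 < s.re → G₀ s ≠ 0) {B : Set ℝ} (hB : MeasurableSet B) (hT : Thin B l)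
    (r t : ℝ) : IntegrableOn (fun u => max (t * (Sh lam c u - r * Real.log u)) 0) (B ∩ Ioi 1) := by
  have D := E.D
  have i1 : IntegrableOn (Sh lam c) (B ∩ Ioi 1) := by
    have h1 := step E (x₁ := l / 8) (l := l) (y := 0) (by linarith) hl
      (fun s hs => hne s (by linarith)) hB hT (by linarith)
    simp only [zero_mul, neg_zero, Real.exp_zero, mul_one] at h1
    exact h1.mono_set (inter_subset_inter_right B (Ioi_subset_Ioi zero_le_one))
  have i2 : IntegrableOn (fun u => r * Real.log u) (B ∩ Ioi 1) := by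
    have h1 := ((thin_int hB hT (β := l / 2) (by linarith)).mono_set
      (inter_subset_inter_right B (Ioi_subset_Ioi zero_le_one))).const_mul (|r| * (2 / l))
    refine Integrable.mono' h1 (Real.measurable_log.const_mul r).aestronglyMeasurable ?_
    filter_upwards [ae_restrict_mem (hB.inter measurableSet_Ioi)] with u hu
    have hu1 : (1 : ℝ) < u := hu.2
    have h2 := log_le_self' hu1.le
    have h3 : u ≤ 2 / l * Real.exp (l / 2 * u) := by
      have := Real.add_one_le_exp (l / 2 * u)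
      have h2 : 2 / l * (l / 2 * u) = u := by field_simp
      have h3 : 2 / l * (l / 2 * u) ≤ 2 / l * Real.exp (l / 2 * u) :=
        mul_le_mul_of_nonneg_left (by linarith) (by positivity)
      linarith
    rw [Real.norm_eq_abs, abs_mul]
    calc |r| * |Real.log u| ≤ |r| * (2 / l * Real.exp (l / 2 * u)) :=
          mul_le_mul_of_nonneg_left (h2.trans h3) (abs_nonneg r)
      _ = _ := by ring
  exact ((i1.sub i2).const_mul t).pos_part

/-- the set where the one-sided bound with `1 + |q| + |r| u` fails is thin -/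
theorem thin_weak {t r q l : ℝ} {f : ℝ → ℝ} (hT : Thin {u | q < t * (f u - r * Real.log u)} l)
    (ht : |t| = 1) : Thin {u | 1 + |q| + |r| * |u| < t * f u} l := by
  refine hT.mono ?_
  filter_upwards [eventually_ge_atTop 1] with n hn
  rintro u ⟨h1, h2, -⟩
  have hn1 : (1 : ℝ) ≤ n := by exact_mod_cast hn
  have hu1 : (1 : ℝ) ≤ u := by linarith
  have h3 : 1 + |q| + |r| * |u| < t * f u := h1
  have h4 := log_le_self' hu1
  have h6 : |t * (r * Real.log u)| ≤ |r| * |u| := by
    rw [abs_mul, ht, one_mul, abs_mul]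
    exact mul_le_mul_of_nonneg_left (h4.trans (le_abs_self u)) (abs_nonneg r)
  have h7 := le_abs_self (t * (r * Real.log u))
  have h8 := le_abs_self q
  show q < t * (f u - r * Real.log u)
  rw [mul_sub]
  linarith

/-- **The one-sided theorem with an exceptional set**: upper bounds. -/
theorem lead_upper (E : Cn lam c δ σ G₀ g k p κ η C) {r q l : ℝ} (hl : 0 < l)
    (hT : Thin {u | q < Sh lam c u - r * Real.log u} l) :
    (∀ s : ℂ, 0 < s.re → G₀ s ≠ 0) ∧ (p : ℝ) ≤ k + r := by
  have D := E.D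
  have hT1 : Thin {u | q < 1 * (Sh lam c u - r * Real.log u)} l := by simpa only [one_mul] using hT
  have hne : ∀ s : ℂ, 0 < s.re → G₀ s ≠ 0 := by
    refine quasi_upper E hl le_rfl (M := fun u => 1 + |q| + |r| * |u|) (by fun_prop)
      (fun u => by positivity) (fun x hx => type_zero r q hx) ?_
    simpa only [one_mul] using thin_weak hT1 (abs_one (α := ℝ))
  refine (hy_of_cn E).upper (r := r) (B := |q| + 1) ?_
  set f : ℝ → ℝ := fun u => Sh lam c u - r * Real.log u with hf
  have hfi : ∀ T : ℝ, 1 ≤ T → IntegrableOn f (Ioc 1 T) := by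
    intro T hT
    have h1 := ferr_loc D r 0 (b := T) le_rfl
    simpa only [sub_zero] using h1
  have hBm : MeasurableSet {u | q < f u} := by
    have h1 := ferr_meas D r 0
    simp only [sub_zero] at h1
    exact measurableSet_lt measurable_const h1
  have h1 := dev_thin_int E hl hne hBm hT r 1
  simp only [one_mul] at h1
  exact mean_thin hfi hBm (q := q) h1 fun u _ hu => not_lt.1 hu

/-- **The one-sided theorem with an exceptional set**: lower bounds. -/
theorem lead_lower (E : Cn lam c δ σ G₀ g k p κ η C) {r q l : ℝ} (hl : 0 < l)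
    (hT : Thin {u | q < r * Real.log u - Sh lam c u} l) (hreal : ∀ x : ℝ, 0 < x → G₀ x ≠ 0) :
    (∀ s : ℂ, 0 < s.re → G₀ s ≠ 0) ∧ (k : ℝ) + r ≤ p := by
  have D := E.D
  have e : ∀ u : ℝ, (-1 : ℝ) * (Sh lam c u - r * Real.log u) = r * Real.log u - Sh lam c u :=
    fun u => by ring
  have hT1 : Thin {u | q < -1 * (Sh lam c u - r * Real.log u)} l := by
    simpa only [e] using hT
  have hne : ∀ s : ℂ, 0 < s.re → G₀ s ≠ 0 := by
    refine quasi_lower E hl le_rfl (M := fun u => 1 + |q| + |r| * |u|) (by fun_prop)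
      (fun u => by positivity) (fun x hx => type_zero r q hx) ?_ hreal
    simpa only [neg_one_mul] using thin_weak hT1 (by rw [abs_neg, abs_one])
  refine (hy_of_cn E).lower (r := r) (B := |q| + 1) ?_ hreal
  set f : ℝ → ℝ := fun u => r * Real.log u - Sh lam c u with hf
  have hfi : ∀ T : ℝ, 1 ≤ T → IntegrableOn f (Ioc 1 T) := by
    intro T hT
    have h1 := (ferr_loc D r 0 (b := T) le_rfl).neg
    refine h1.congr_fun (fun u _ => ?_) measurableSet_Ioc
    simp only [hf, Pi.neg_apply]
    ring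
  have hBm : MeasurableSet {u | q < f u} := by
    have h1 := (ferr_meas D r 0).neg
    have h2 : (-fun u => Sh lam c u - r * Real.log u - 0) = f := by
      funext u
      simp only [hf, Pi.neg_apply]
      ring
    rw [h2] at h1
    exact measurableSet_lt measurable_const h1
  have h1 := dev_thin_int E hl hne hBm hT r (-1)
  simp only [e] at h1
  exact mean_thin hfi hBm (q := q) h1 fun u _ hu => not_lt.1 hu

end Pool.Agent.W5h26.OS
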