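import Pool.Agent.W5h26.OS.Sparse

/-!
# Systems of primes: one-sided bounds of the products outside few integers
-/

set_option autoImplicit false

open MeasureTheory Filter Topology Set
open scoped ENNReal
open Pool.Agent.TH942.LS (Dat)
open Pool.Agent.TH942.SL
open Pool.Agent.TH942.ES
open Pool.Agent.TH270.MS
open Pool.Agent.TH270.RS (cS' dat' DD_neg)
open Pool.Agent.W263.BSD (LInt lap lapC lapC_ofReal lapC_differentiableAt)
open Pool.Agent.W5h26.ES
open Pool.Agent.W5h26.ML

namespace Pool.Agent.W5h26.OS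

variable {X : Type} {d : ℕ} {N : X → ℕ} {α : X → Fin d → ℂ} {e : X × ℕ → ℕ}

/-- prime powers against primes, at the integers -/
theorem sh_lp (E : Sys N α) (he : Function.Injective e) : ∃ M : ℝ, 0 ≤ M ∧ ∀ u : ℝ, 0 ≤ u →
    |Sh (lamS N e) (cS' N α e) u - LP N α (⌊Real.exp u⌋₊ : ℝ)| ≤ M := by
  obtain ⟨M, hM⟩ := lp_pl E
  have hM0 : 0 ≤ M := (abs_nonneg _).trans (hM 1 le_rfl)
  refine ⟨M, hM0, fun u hu => ?_⟩
  rw [sh_eq E he, ← lp_floor (Real.exp_pos u).le]
  have h1 : -Pl N α (Real.exp u) - LP N α (Real.exp u) =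
      -(LP N α (Real.exp u) + Pl N α (Real.exp u)) := by ring
  rw [h1, abs_neg]
  exact hM _ (Real.one_le_exp hu)

/-- a local bound and an eventual bound -/
theorem lint_of_le {f F : ℝ → ℝ} {x σ C₁ : ℝ} (hf : Measurable f)
    (hloc : ∀ u : ℝ, 0 ≤ u → |f u| ≤ C₁ * Real.exp (σ * u)) (h : ∀ᶠ u : ℝ in atTop, |f u| ≤ F u)
    (hF : IntegrableOn (fun u => F u * Real.exp (-(x * u))) (Ioi 0)) : LInt f x := by
  obtain ⟨u₀, hu₀⟩ := eventually_atTop.1 h
  set A : ℝ := max u₀ 0 with hA
  have hm : Measurable fun u => f u * Real.exp (-(x * u)) := hf.mul (by fun_prop)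
  have hsub : Ioi (0 : ℝ) ⊆ Ioc 0 A ∪ (Ioi 0 ∩ Ioi A) := by
    intro u hu
    rcases le_or_gt u A with h1 | h1
    · exact Or.inl ⟨hu, h1⟩
    · exact Or.inr ⟨hu, h1⟩
  unfold LInt
  refine IntegrableOn.mono_set (IntegrableOn.union ?_ ?_) hsub
  · refine Integrable.mono' (g := fun u => C₁ * Real.exp (σ * u) * Real.exp (-(x * u))) ?_
      hm.aestronglyMeasurable ?_
    · exact (ContinuousOn.integrableOn_Icc (by fun_prop)).mono_set Ioc_subset_Icc_self
    · filter_upwards [ae_restrict_mem measurableSet_Ioc] with u hu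
      rw [norm_mul, Real.norm_of_nonneg (Real.exp_pos _).le]
      exact mul_le_mul_of_nonneg_right (hloc u hu.1.le) (Real.exp_pos _).le
  · refine Integrable.mono' (hF.mono_set inter_subset_left) hm.aestronglyMeasurable ?_
    filter_upwards [ae_restrict_mem (measurableSet_Ioi.inter measurableSet_Ioi)] with u hu
    rw [norm_mul, Real.norm_of_nonneg (Real.exp_pos _).le]
    refine mul_le_mul_of_nonneg_right (hu₀ u ?_) (Real.exp_pos _).le
    have h1 : A < u := hu.2
    exact (le_max_left u₀ 0).trans h1.le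

lemma exp_int {a x : ℝ} (h : a < x) (K : ℝ) :
    IntegrableOn (fun u : ℝ => K * Real.exp (a * u) * Real.exp (-(x * u))) (Ioi 0) := by
  have h1 : IntegrableOn (fun u : ℝ => K * Real.exp ((a - x) * u)) (Ioi 0) :=
    (integrableOn_exp_mul_Ioi (by linarith) 0).const_mul _
  refine h1.congr_fun (fun u _ => ?_) measurableSet_Ioi
  simp only
  rw [mul_assoc, ← Real.exp_add]
  congr 2
  ring

lemma floor_bounds {u : ℝ} (hu : 0 ≤ u) :
    (⌊Real.exp u⌋₊ : ℝ) ≤ Real.exp u ∧ Real.exp u / 2 ≤ ⌊Real.exp u⌋₊ ∧ 1 ≤ ⌊Real.exp u⌋₊ := by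
  have h1 : (⌊Real.exp u⌋₊ : ℝ) ≤ Real.exp u := Nat.floor_le (Real.exp_pos u).le
  have h2 : Real.exp u < ⌊Real.exp u⌋₊ + 1 := Nat.lt_floor_add_one _
  have h3 : 1 ≤ ⌊Real.exp u⌋₊ := by
    rw [Nat.one_le_floor_iff]
    exact Real.one_le_exp hu
  have h4 : (1 : ℝ) ≤ ⌊Real.exp u⌋₊ := by exact_mod_cast h3
  exact ⟨h1, by linarith, h3⟩

lemma fl_tendsto : Tendsto (fun u : ℝ => ⌊Real.exp u⌋₊) atTop atTop :=
  tendsto_nat_floor_atTop.comp Real.tendsto_exp_atTop

/-- **One-sided integrability of the partial sums** from a one-sided bound of the products outside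
few integers -/
theorem part_lint (E : Sys N α) (he : Function.Injective e) {D₀ : ℕ} (hD : Fib N D₀)
    {l θ t : ℝ} (hl : 0 ≤ l) (hl2 : l ≤ 1 / 2) (hθ : 0 ≤ θ) (ht : |t| = 1)
    (h : ∀ ε : ℝ, 0 < ε → Out l fun n => t * LP N α n ≤ (n : ℝ) ^ (θ + ε)) {x : ℝ}
    (hx : max θ (1 / 2 - 2 * l) < x) :
    LInt (fun u => max (t * Sh (lamS N e) (cS' N α e) u) 0) x := by
  have hx1 : θ < x := (le_max_left _ _).trans_lt hx
  have hx2 : 1 / 2 - 2 * l < x := (le_max_right _ _).trans_lt hx
  have D := dat' E he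
  set S : ℝ → ℝ := Sh (lamS N e) (cS' N α e) with hS
  have hSm : Measurable S := sh_meas D
  set ε : ℝ := (x - θ) / 2 with hε
  have hε0 : 0 < ε := by rw [hε]; linarith
  set θ' : ℝ := θ + ε with hθ'
  have hθx : θ' < x := by rw [hθ', hε]; linarith
  have hθ0 : 0 < θ' := by rw [hθ']; linarith
  have hO := h ε hε0
  rw [← hθ'] at hO
  set l' : ℝ := ((1 / 2 - l - x) + l) / 2 with hl'
  have hl'l : l' < l := by rw [hl']; linarith
  have hl'x : 1 / 2 - l - x < l' := by rw [hl']; linarith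
  set B : Set ℝ := US fun n => ¬ t * LP N α n ≤ (n : ℝ) ^ θ' with hB
  have hBm : MeasurableSet B := us_meas _
  have hT : Thin B l' := thin_of_out hO hl'l
  obtain ⟨M, hM0, hM⟩ := sh_lp E he
  obtain ⟨K, hK0, hK⟩ := point E hD hl ht hO
  set F : ℝ → ℝ := fun u => (2 ^ θ' * Real.exp (θ' * u) + (M + K) * Real.exp (0 * u)) +
    B.indicator (fun u => K * Real.exp ((1 / 2 - l) * u)) u with hF
  have hFi : IntegrableOn (fun u => F u * Real.exp (-(x * u))) (Ioi 0) := by
    have i1 := exp_int hθx (2 ^ θ')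
    have i2 := exp_int (a := 0) (x := x) (by linarith) (M + K)
    have i3 : IntegrableOn (fun u => B.indicator (fun u => K * Real.exp ((1 / 2 - l) * u)) u *
        Real.exp (-(x * u))) (Ioi 0) := by
      have j1 : IntegrableOn (fun u => K * Real.exp ((1 / 2 - l - x) * u)) (B ∩ Ioi 0) :=
        (thin_int hBm hT hl'x).const_mul K
      have j2 : IntegrableOn (B.indicator fun u => K * Real.exp ((1 / 2 - l - x) * u)) (Ioi 0) := by
        rw [integrableOn_indicator_iff hBm]
        exact j1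
      refine j2.congr_fun (fun u _ => ?_) measurableSet_Ioi
      by_cases hu : u ∈ B
      · rw [indicator_of_mem hu, indicator_of_mem hu, mul_assoc, ← Real.exp_add]
        congr 2
        ring
      · rw [indicator_of_notMem hu, indicator_of_notMem hu, zero_mul]
    refine ((i1.add i2).add i3).congr_fun (fun u _ => ?_) measurableSet_Ioi
    simp only [Pi.add_apply, hF]
    ring
  refine lint_of_le (F := F) (σ := 1) (C₁ := ∑' n, |cS' N α e n| * Real.exp (-(1 * lamS N e n)))
    ((hSm.const_mul t).max measurable_const) (fun u hu => ?_) ?_ hFi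
  · rw [abs_of_nonneg (le_max_right _ _)]
    have h1 : |t * S u| ≤ (∑' n, |cS' N α e n| * Real.exp (-(1 * lamS N e n))) *
        Real.exp (1 * u) := by
      rw [abs_mul, ht, one_mul, mul_comm]
      exact sh_le D u
    exact max_le ((le_abs_self _).trans h1) ((abs_nonneg _).trans h1)
  · filter_upwards [fl_tendsto.eventually hK, eventually_ge_atTop 0] with u h1 hu
    obtain ⟨m, hm1, hm2, hm3⟩ := h1
    obtain ⟨f1, f2, f3⟩ := floor_bounds hu
    have f4 : (1 : ℝ) ≤ ⌊Real.exp u⌋₊ := by exact_mod_cast f3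
    set n : ℕ := ⌊Real.exp u⌋₊ with hn
    rw [abs_of_nonneg (le_max_right _ _)]
    have e1 : t * S u ≤ t * LP N α n + M := by
      have h2 := hM u hu
      rw [← hn] at h2
      have h3 : |t * S u - t * LP N α n| ≤ M := by
        rw [← mul_sub, abs_mul, ht, one_mul]
        exact h2
      have := (abs_le.1 h3).2
      linarith
    have e0 : Real.exp (0 * u) = 1 := by rw [zero_mul, Real.exp_zero]
    have p1 : 0 ≤ 2 ^ θ' * Real.exp (θ' * u) := by positivity
    have p2 : 0 ≤ B.indicator (fun u => K * Real.exp ((1 / 2 - l) * u)) u :=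
      indicator_nonneg (fun u _ => by positivity) u
    have pF : 0 ≤ F u := by
      simp only [hF]
      rw [e0]
      positivity
    refine max_le (e1.trans ?_) pF
    have q1 : (n : ℝ) ^ θ' ≤ Real.exp (θ' * u) := by
      rw [mul_comm θ' u, Real.exp_mul]
      exact Real.rpow_le_rpow (by linarith) f1 hθ0.le
    have q2 : (1 : ℝ) ≤ 2 ^ θ' := Real.one_le_rpow (by norm_num) hθ0.le
    by_cases hu : u ∈ B
    · simp only [hF]
      rw [indicator_of_mem hu, e0]
      have q3 : (m : ℝ) ^ θ' ≤ 2 ^ θ' * Real.exp (θ' * u) := by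
        rw [mul_comm θ' u, Real.exp_mul, ← Real.mul_rpow (by norm_num) (Real.exp_pos u).le]
        refine Real.rpow_le_rpow (Nat.cast_nonneg m) ?_ hθ0.le
        have : (m : ℝ) ≤ 2 * n := by exact_mod_cast hm2
        linarith
      have q4 : (n : ℝ) ^ (1 / 2 - l) ≤ Real.exp ((1 / 2 - l) * u) := by
        rw [mul_comm (1 / 2 - l) u, Real.exp_mul]
        exact Real.rpow_le_rpow (by linarith) f1 (by linarith)
      have q5 := mul_le_mul_of_nonneg_left q4 hK0
      linarith
    · simp only [hF]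
      rw [indicator_of_notMem hu, e0]
      have q3 : t * LP N α n ≤ (n : ℝ) ^ θ' := by
        by_contra hcon
        exact hu hcon
      have q4 : 1 * Real.exp (θ' * u) ≤ 2 ^ θ' * Real.exp (θ' * u) :=
        mul_le_mul_of_nonneg_right q2 (Real.exp_pos _).le
      linarith

variable {G₀ : ℂ → ℂ} {k : ℕ}

/-- `max θ (1/2 - 2 l)` does not change if `l` is replaced by `min l (1/2)` -/
lemma max_min_eq {θ l : ℝ} (hθ : 0 ≤ θ) :
    max θ (1 / 2 - 2 * min l (1 / 2)) = max θ (1 / 2 - 2 * l) := by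
  rcases le_total l (1 / 2) with h | h
  · rw [min_eq_left h]
  · rw [min_eq_right h, max_eq_left (by linarith), max_eq_left (by linarith)]

/-- **Upper bounds, no growth hypothesis: zero-free half-planes.** -/
theorem free_upper (H : Mh N α G₀ k) {D₀ : ℕ} (hD : Fib N D₀) {l θ : ℝ} (hl : 0 ≤ l)
    (hθ : 0 ≤ θ) (h : ∀ ε : ℝ, 0 < ε → Out l fun n => LP N α n ≤ (n : ℝ) ^ (θ + ε)) :
    ∀ s : ℂ, max θ (1 / 2 - 2 * l) < s.re → G₀ s ≠ 0 := by
  obtain ⟨e, g, p, he, hp, Q⟩ := H.hy
  rw [← max_min_eq hθ]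
  refine half_upper Q (hθ.trans (le_max_left _ _)) fun x hx => ?_
  have h1 := part_lint H.E he hD (t := 1) (le_min hl (by norm_num)) (min_le_right l (1 / 2)) hθ
    abs_one (fun ε hε => ?_) hx
  · have h2 : Ep (lamS N e) (cS' N α e) 0 0 =
        fun u => max (1 * Sh (lamS N e) (cS' N α e) u) 0 := by
      funext u
      unfold Ep
      rw [er_eq, one_mul]
    rw [h2]
    exact h1
  · have h2 := (h ε hε).le (min_le_left l (1 / 2))
    simpa only [one_mul] using h2

/-- **Lower bounds, no growth hypothesis: zero-free half-planes.** -/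
theorem free_lower (H : Mh N α G₀ k) {D₀ : ℕ} (hD : Fib N D₀) {l θ : ℝ} (hl : 0 ≤ l)
    (hθ : 0 ≤ θ) (h : ∀ ε : ℝ, 0 < ε → Out l fun n => -(n : ℝ) ^ (θ + ε) ≤ LP N α n)
    (hreal : ∀ x : ℝ, max θ (1 / 2 - 2 * l) < x → G₀ x ≠ 0) :
    ∀ s : ℂ, max θ (1 / 2 - 2 * l) < s.re → G₀ s ≠ 0 := by
  obtain ⟨e, g, p, he, hp, Q⟩ := H.hy
  rw [← max_min_eq hθ] at hreal ⊢
  refine half_lower Q (hθ.trans (le_max_left _ _)) (fun x hx => ?_) hreal
  have h1 := part_lint H.E he hD (t := -1) (le_min hl (by norm_num)) (min_le_right l (1 / 2)) hθ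
    (by rw [abs_neg, abs_one]) (fun ε hε => ?_) hx
  · have h2 : Em (lamS N e) (cS' N α e) 0 0 =
        fun u => max (-1 * Sh (lamS N e) (cS' N α e) u) 0 := by
      funext u
      unfold Em
      rw [er_eq, neg_one_mul]
    rw [h2]
    exact h1
  · have h2 := (h ε hε).le (min_le_left l (1 / 2))
    refine h2.mono (Eventually.of_forall fun n hn => ?_)
    rw [neg_one_mul]
    linarith

/-- the function of `u = log y` -/
lemma lpe_meas (N : X → ℕ) (α : X → Fin d → ℂ) : Measurable fun u : ℝ => LP N α (Real.exp u) := by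
  have h1 : Measurable fun u : ℝ => LP N α (⌊Real.exp u⌋₊ : ℝ) := by
    have h2 : Measurable fun n : ℕ => LP N α (n : ℝ) := measurable_from_top
    exact h2.comp (Nat.measurable_floor.comp Real.measurable_exp)
  have h2 : (fun u : ℝ => LP N α (Real.exp u)) = fun u : ℝ => LP N α (⌊Real.exp u⌋₊ : ℝ) :=
    funext fun u => lp_floor (Real.exp_pos u).le
  rw [h2]
  exact h1

/-- `log log` of the integral part -/
lemma loglog_floor {u : ℝ} (hu : 2 ≤ u) :
    |Real.log (Real.log (⌊Real.exp u⌋₊ : ℝ)) - Real.log u| ≤ 1 := by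
  obtain ⟨f1, f2, f3⟩ := floor_bounds (by linarith : (0 : ℝ) ≤ u)
  have f4 : (1 : ℝ) ≤ ⌊Real.exp u⌋₊ := by exact_mod_cast f3
  have h1 : Real.log (⌊Real.exp u⌋₊ : ℝ) ≤ u := by
    have := Real.log_le_log (by linarith) f1
    rwa [Real.log_exp] at this
  have h2 : u / 2 ≤ Real.log (⌊Real.exp u⌋₊ : ℝ) := by
    have h3 := Real.log_le_log (by positivity) f2
    rw [Real.log_div (Real.exp_pos u).ne' (by norm_num), Real.log_exp] at h3
    have h4 := Real.log_two_lt_d9
    linarith
  have h3 : Real.log (Real.log (⌊Real.exp u⌋₊ : ℝ)) ≤ Real.log u :=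
    Real.log_le_log (by linarith) h1
  have h4 : Real.log u - Real.log 2 ≤ Real.log (Real.log (⌊Real.exp u⌋₊ : ℝ)) := by
    rw [← Real.log_div (by linarith) (by norm_num)]
    exact Real.log_le_log (by linarith) h2
  have h5 := Real.log_two_lt_d9
  rw [abs_le]
  constructor <;> linarith

/-- **The mean law** from a one-sided bound of the products outside few integers, no growth
hypothesis -/
theorem law_of_out (E : Sys N α) {D₀ : ℕ} (hD : Fib N D₀) {l t ρ q : ℝ} (hl : 1 / 4 < l)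
    (hl2 : l ≤ 1 / 2) (ht : |t| = 1)
    (h : Out l fun n => t * LP N α n ≤ t * (ρ * Real.log (Real.log n)) + q) :
    Law fun y => max (t * dev N α ρ y) 0 := by
  obtain ⟨K, hK0, hK⟩ := point E hD (by linarith) ht h
  set l' : ℝ := (l + (1 / 2 - l)) / 2 + (l - (1 / 2 - l)) / 4 with hl'
  have hl'l : l' < l := by rw [hl']; linarith
  have hβ : 1 / 2 - l < l' := by rw [hl']; linarith
  have hl'0 : 0 < l' := by linarith
  set B : Set ℝ := US fun n => ¬ t * LP N α n ≤ t * (ρ * Real.log (Real.log n)) + q with hB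
  have hBm : MeasurableSet B := us_meas _
  have hT : Thin B l' := thin_of_out h hl'l
  set φ : ℝ → ℝ := fun u => t * dev N α ρ (Real.exp u) with hφ
  have hφm : Measurable φ := by
    have h1 : φ = fun u => t * (LP N α (Real.exp u) - ρ * Real.log u) := by
      funext u
      simp only [hφ, dev, Real.log_exp]
    rw [h1]
    exact ((lpe_meas N α).sub (Real.measurable_log.const_mul ρ)).const_mul t
  have hbd : ∀ A : ℝ, ∃ M : ℝ, ∀ u : ℝ, 1 ≤ u → u ≤ A → |φ u| ≤ M := by
    intro A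
    obtain ⟨M, hM⟩ := (dev_bm E ρ).2 (Real.exp A)
    refine ⟨M, fun u h1 h2 => ?_⟩
    simp only [hφ]
    rw [abs_mul, ht, one_mul]
    exact hM _ (Real.exp_le_exp.2 h1) (Real.exp_le_exp.2 h2)
  have hloc : ∀ A : ℝ, IntegrableOn φ (Ioc 1 A) := by
    intro A
    obtain ⟨M, hM⟩ := hbd A
    refine Integrable.mono' (g := fun _ => M) (integrableOn_const (by simp))
      hφm.aestronglyMeasurable ?_
    filter_upwards [ae_restrict_mem measurableSet_Ioc] with u hu
    exact hM u hu.1.le hu.2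
  -- the bounds for large `u`
  obtain ⟨u₀, hu₀2, hgood, hbad⟩ : ∃ u₀ : ℝ, 2 ≤ u₀ ∧ (∀ u : ℝ, u₀ ≤ u → u ∉ B → φ u ≤ q + |ρ|) ∧
      (∀ u : ℝ, u₀ ≤ u → φ u ≤ |q| + 2 * |ρ| * (u + 1) + K * (Real.exp ((1 / 2 - l) * u) + 1)) := by
    obtain ⟨v, hv⟩ := eventually_atTop.1 (fl_tendsto.eventually hK)
    refine ⟨max v 2, le_max_right _ _, fun u hu huB => ?_, fun u hu => ?_⟩
    · have hu2 : 2 ≤ u := (le_max_right _ _).trans hu
      have h1 : t * LP N α (⌊Real.exp u⌋₊ : ℝ) ≤
          t * (ρ * Real.log (Real.log (⌊Real.exp u⌋₊ : ℝ))) + q := by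
        by_contra hcon
        exact huB hcon
      have h2 := loglog_floor hu2
      have h3 : φ u = t * LP N α (⌊Real.exp u⌋₊ : ℝ) - t * (ρ * Real.log u) := by
        simp only [hφ, dev, Real.log_exp]
        rw [lp_floor (Real.exp_pos u).le]
        ring
      have h4 : |t * (ρ * (Real.log (Real.log (⌊Real.exp u⌋₊ : ℝ)) - Real.log u))| ≤ |ρ| := by
        rw [abs_mul, ht, one_mul, abs_mul]
        calc |ρ| * _ ≤ |ρ| * 1 := mul_le_mul_of_nonneg_left h2 (abs_nonneg ρ)
          _ = _ := mul_one _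
      have h5 := (abs_le.1 h4).2
      rw [h3]
      have h6 : t * (ρ * Real.log (Real.log (⌊Real.exp u⌋₊ : ℝ))) - t * (ρ * Real.log u) =
          t * (ρ * (Real.log (Real.log (⌊Real.exp u⌋₊ : ℝ)) - Real.log u)) := by ring
      linarith
    · have hu2 : 2 ≤ u := (le_max_right _ _).trans hu
      obtain ⟨m, hm1, hm2, hm3⟩ := hv u ((le_max_left _ _).trans hu)
      obtain ⟨f1, f2, f3⟩ := floor_bounds (by linarith : (0 : ℝ) ≤ u)
      have f4 : (1 : ℝ) ≤ ⌊Real.exp u⌋₊ := by exact_mod_cast f3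
      have h3 : φ u = t * LP N α (⌊Real.exp u⌋₊ : ℝ) - t * (ρ * Real.log u) := by
        simp only [hφ, dev, Real.log_exp]
        rw [lp_floor (Real.exp_pos u).le]
        ring
      have e2 : Real.exp 2 = Real.exp 1 * Real.exp 1 := by rw [← Real.exp_add]; norm_num
      have e3 := Real.exp_one_gt_d9
      have e4 : Real.exp 2 ≤ Real.exp u := Real.exp_le_exp.2 hu2
      have hmR : Real.exp u / 2 ≤ m := by
        have : (⌊Real.exp u⌋₊ : ℝ) ≤ m := by exact_mod_cast hm1
        linarith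
      have hmR2 : (m : ℝ) ≤ 2 * Real.exp u := by
        have : (m : ℝ) ≤ 2 * ⌊Real.exp u⌋₊ := by exact_mod_cast hm2
        linarith
      have hlm1 : 1 ≤ Real.log m := by
        have h5 : Real.exp 1 ≤ m := by nlinarith
        have := Real.log_le_log (Real.exp_pos 1) h5
        rwa [Real.log_exp] at this
      have hlm2 : Real.log m ≤ u + 1 := by
        have h5 := Real.log_le_log (by linarith [Real.exp_pos u]) hmR2
        rw [Real.log_mul (by norm_num) (Real.exp_pos u).ne', Real.log_exp] at h5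
        have := Real.log_two_lt_d9
        linarith
      have h5 : |Real.log (Real.log m)| ≤ u + 1 := by
        rw [abs_of_nonneg (Real.log_nonneg hlm1)]
        have := Real.log_le_sub_one_of_pos (by linarith : 0 < Real.log m)
        linarith
      have h6 : |t * (ρ * Real.log (Real.log m))| ≤ |ρ| * (u + 1) := by
        rw [abs_mul, ht, one_mul, abs_mul]
        exact mul_le_mul_of_nonneg_left h5 (abs_nonneg ρ)
      have h7 : |t * (ρ * Real.log u)| ≤ |ρ| * (u + 1) := by
        rw [abs_mul, ht, one_mul, abs_mul]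
        refine mul_le_mul_of_nonneg_left ((log_le_self' (by linarith)).trans (by linarith))
          (abs_nonneg ρ)
      have q4 : (⌊Real.exp u⌋₊ : ℝ) ^ (1 / 2 - l) ≤ Real.exp ((1 / 2 - l) * u) := by
        rw [mul_comm (1 / 2 - l) u, Real.exp_mul]
        exact Real.rpow_le_rpow (by linarith) f1 (by linarith)
      have q5 := mul_le_mul_of_nonneg_left q4 hK0
      have h8 := (abs_le.1 h6).2
      have h9 := (abs_le.1 h7).1
      have h10 := le_abs_self q
      rw [h3]
      linarith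
  set B' : Set ℝ := B ∪ Iic u₀ with hB'
  have hB'm : MeasurableSet B' := hBm.union measurableSet_Iic
  have hint : IntegrableOn (fun u => max (φ u) 0) (B' ∩ Ioi 1) := by
    have hsub : B' ∩ Ioi 1 ⊆ Ioc 1 u₀ ∪ (B ∩ Ioi u₀) := by
      rintro u ⟨h1, h2⟩
      rcases le_or_gt u u₀ with h3 | h3
      · exact Or.inl ⟨h2, h3⟩
      · rcases h1 with h1 | h1
        · exact Or.inr ⟨h1, h3⟩
        · exact absurd h1 (not_le.2 h3)
    refine IntegrableOn.mono_set (IntegrableOn.union (hloc u₀).pos_part ?_) hsub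
    -- the thin part
    have i1 : IntegrableOn (fun u => K * Real.exp ((1 / 2 - l) * u)) (B ∩ Ioi 0) :=
      (thin_int hBm hT hβ).const_mul K
    have i2 : IntegrableOn (fun u => (|q| + 4 * |ρ| * (2 / l') + K) * Real.exp (l' / 2 * u))
        (B ∩ Ioi 0) := (thin_int hBm hT (by linarith)).const_mul _
    have hsub2 : B ∩ Ioi u₀ ⊆ B ∩ Ioi 0 := inter_subset_inter_right B (Ioi_subset_Ioi (by linarith))
    refine Integrable.mono' ((i1.add i2).mono_set hsub2)
      (hφm.max measurable_const).aestronglyMeasurable ?_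
    filter_upwards [ae_restrict_mem (hBm.inter measurableSet_Ioi)] with u hu
    have hu1 : u₀ < u := hu.2
    have h1 := hbad u hu1.le
    rw [Real.norm_of_nonneg (le_max_right _ _)]
    simp only [Pi.add_apply]
    have h3 : u ≤ 2 / l' * Real.exp (l' / 2 * u) := by
      have := Real.add_one_le_exp (l' / 2 * u)
      have h2 : 2 / l' * (l' / 2 * u) = u := by field_simp
      have h3 : 2 / l' * (l' / 2 * u) ≤ 2 / l' * Real.exp (l' / 2 * u) :=
        mul_le_mul_of_nonneg_left (by linarith) (by positivity)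
      linarith
    have hu0 : 0 < u := by linarith
    have h4 : 1 ≤ Real.exp (l' / 2 * u) := Real.one_le_exp (by positivity)
    have h5 : 2 * |ρ| * (u + 1) ≤ 4 * |ρ| * (2 / l') * Real.exp (l' / 2 * u) := by
      have h6 : u + 1 ≤ 2 * u := by linarith
      calc 2 * |ρ| * (u + 1) ≤ 2 * |ρ| * (2 * u) := by gcongr
        _ = 4 * |ρ| * u := by ring
        _ ≤ 4 * |ρ| * (2 / l' * Real.exp (l' / 2 * u)) := by gcongr
        _ = _ := by ring
    have h6 : |q| * 1 ≤ |q| * Real.exp (l' / 2 * u) :=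
      mul_le_mul_of_nonneg_left h4 (abs_nonneg q)
    have h7 : K * 1 ≤ K * Real.exp (l' / 2 * u) := mul_le_mul_of_nonneg_left h4 hK0
    have h8 : 0 ≤ K * Real.exp ((1 / 2 - l) * u) := mul_nonneg hK0 (Real.exp_pos _).le
    have h9 : 0 ≤ (|q| + 4 * |ρ| * (2 / l') + K) * Real.exp (l' / 2 * u) := by positivity
    refine max_le ?_ (add_nonneg h8 h9)
    linarith
  have hmean := mean_thin (f := φ) (fun T _ => hloc T) hB'm (q := q + |ρ|) hint fun u hu1 hu2 => by
    have h1 : ¬ u ≤ u₀ := fun h1 => hu2 (Or.inr h1)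
    exact hgood u (not_le.1 h1).le fun h2 => hu2 (Or.inl h2)
  refine ⟨abs (q + |ρ|) + 1, ?_⟩
  rw [eventually_exp_iff (f := fun Y => ∫ y in Real.exp 1..Y, max (t * dev N α ρ y) 0 / y ≤
    (abs (q + |ρ|) + 1) * Real.log Y)]
  filter_upwards [hmean, eventually_ge_atTop 1] with T h1 h2
  rw [Real.log_exp]
  have h3 := cov_ii (fun u => max (φ u) 0) h2
  have h4 : ∫ y in Real.exp 1..Real.exp T, max (t * dev N α ρ y) 0 / y =
      ∫ X in Real.exp 1..Real.exp T, max (φ (Real.log X)) 0 / X := by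
    refine intervalIntegral.integral_congr fun Y hY => ?_
    rw [uIcc_of_le (Real.exp_le_exp.2 h2)] at hY
    have h0 : 0 < Y := (Real.exp_pos 1).trans_le hY.1
    simp only [hφ]
    rw [Real.exp_log h0]
  rw [h4, h3]
  exact h1

/-- **Upper bounds, no growth hypothesis.** -/
theorem order_upper (H : Mh N α G₀ k) {D₀ : ℕ} (hD : Fib N D₀) {l ρ q : ℝ} (hl : 1 / 4 < l)
    (h : Out l fun n => LP N α n ≤ ρ * Real.log (Real.log n) + q) :
    (∀ s : ℂ, 0 < s.re → G₀ s ≠ 0) ∧ ∀ p : ℕ, analyticOrderAt G₀ 0 = p → (p : ℝ) ≤ k + ρ := by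
  have h1 := law_of_out H.E hD (t := 1) (ρ := ρ) (q := q) (lt_min hl (by norm_num))
    (min_le_right l (1 / 2)) abs_one (by
      simp only [one_mul]
      exact h.le (min_le_left _ _))
  simp only [one_mul] at h1
  exact H.upper h1

/-- **Lower bounds, no growth hypothesis.** -/
theorem order_lower (H : Mh N α G₀ k) {D₀ : ℕ} (hD : Fib N D₀) {l ρ q : ℝ} (hl : 1 / 4 < l)
    (h : Out l fun n => ρ * Real.log (Real.log n) - q ≤ LP N α n)
    (hreal : ∀ x : ℝ, 0 < x → G₀ x ≠ 0) :
    (∀ s : ℂ, 0 < s.re → G₀ s ≠ 0) ∧ ∀ p : ℕ, analyticOrderAt G₀ 0 = p → (k : ℝ) + ρ ≤ p := by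
  have h1 := law_of_out H.E hD (t := -1) (ρ := ρ) (q := q) (lt_min hl (by norm_num))
    (min_le_right l (1 / 2)) (by rw [abs_neg, abs_one])
    ((h.le (min_le_left l (1 / 2))).mono (Eventually.of_forall fun n hn => by linarith))
  simp only [neg_one_mul] at h1
  exact H.lower h1 hreal

end Pool.Agent.W5h26.OS
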