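import Pool.Agent.W5h26.OS.Half

/-!
# Systems of primes: exceptional sets of integers
-/

set_option autoImplicit false

open MeasureTheory Filter Topology Set
open scoped ENNReal
open Pool.Agent.TH942.LS (Dat)
open Pool.Agent.TH942.SL
open Pool.Agent.TH942.ES
open Pool.Agent.TH270.MS
open Pool.Agent.TH270.RS (cS' dat' DD_neg)
open Pool.Agent.W263.BSD (LInt lap lapC lapC_ofReal lapC_differentiableAt)
open Pool.Agent.W5h26.ES
open Pool.Agent.W5h26.ML

namespace Pool.Agent.W5h26.OS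

open Classical in
/-- `P` holds for all but at most `X ^ (1 - l)` of the integers `n` with `X ≤ n ≤ 2 X`, for all
large `X` -/
def Out (l : ℝ) (P : ℕ → Prop) : Prop :=
  ∀ᶠ X : ℕ in atTop, (((Finset.Icc X (2 * X)).filter fun n => ¬ P n).card : ℝ) ≤ (X : ℝ) ^ (1 - l)

theorem Out.le {l l' : ℝ} {P : ℕ → Prop} (h : Out l P) (hl : l' ≤ l) : Out l' P := by
  filter_upwards [h, eventually_ge_atTop 1] with X h1 h2
  have hX : (1 : ℝ) ≤ X := by exact_mod_cast h2
  exact h1.trans (Real.rpow_le_rpow_of_exponent_le hX (by linarith))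

theorem Out.mono {l : ℝ} {P Q : ℕ → Prop} (h : Out l P) (hPQ : ∀ᶠ n in atTop, P n → Q n) :
    Out l Q := by
  classical
  obtain ⟨N, hN⟩ := eventually_atTop.1 hPQ
  filter_upwards [h, eventually_ge_atTop N] with X h1 h2
  refine le_trans ?_ h1
  refine Nat.cast_le.2 (Finset.card_le_card fun n hn => ?_)
  obtain ⟨h3, h4⟩ := Finset.mem_filter.1 hn
  have h5 := (Finset.mem_Icc.1 h3).1
  exact Finset.mem_filter.2 ⟨h3, fun hP => h4 (hN n (h2.trans h5) hP)⟩

/-- **from integers to real numbers**, with the loss of an `ε` -/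
theorem thin_of_out {P : ℕ → Prop} {l l' : ℝ} (h : Out l P) (hl : l' < l) :
    Thin (US fun n => ¬ P n) l' := by
  classical
  -- without loss of generality `l ≤ 1`
  obtain ⟨l₁, l₂, h12, h21, hl1, hF⟩ : ∃ l₁ l₂ : ℝ, l₁ < l₂ ∧ (l' ≤ l₁) ∧ 0 ≤ l₂ ∧
      ∀ᶠ X : ℕ in atTop, (((Finset.Icc X (2 * X)).filter fun n => ¬ P n).card : ℝ) ≤
        2 * (X : ℝ) ^ (1 - l₂) := by
    by_cases h0 : 0 ≤ l
    · refine ⟨l', l, hl, le_rfl, h0, ?_⟩
      filter_upwards [h] with X h1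
      have : 0 ≤ (X : ℝ) ^ (1 - l) := by positivity
      convert h1.trans (by linarith : (X : ℝ) ^ (1 - l) ≤ 2 * (X : ℝ) ^ (1 - l))
    · refine ⟨l', 0, by linarith, le_rfl, le_rfl, ?_⟩
      filter_upwards [eventually_ge_atTop 1] with X hX
      have e1 : ((Finset.Icc X (2 * X)).filter fun n => ¬ P n).card ≤ X + 1 := by
        refine (Finset.card_filter_le _ _).trans ?_
        rw [Nat.card_Icc]
        omega
      have e2 : (((Finset.Icc X (2 * X)).filter fun n => ¬ P n).card : ℝ) ≤ X + 1 := by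
        exact_mod_cast e1
      have e3 : (1 : ℝ) ≤ X := by exact_mod_cast hX
      rw [sub_zero, Real.rpow_one]
      linarith
  refine Thin.le ?_ h21
  clear h21
  have hfl : Tendsto (fun n : ℕ => ⌊Real.exp n⌋₊) atTop atTop :=
    tendsto_nat_floor_atTop.comp (Real.tendsto_exp_atTop.comp tendsto_natCast_atTop_atTop)
  have hfl2 : Tendsto (fun n : ℕ => 2 * ⌊Real.exp n⌋₊) atTop atTop :=
    tendsto_atTop_mono (fun n => by omega) hfl
  have hsmall : ∀ᶠ n : ℕ in atTop, 6 * (2 : ℝ) ^ l₂ ≤ Real.exp ((l₂ - l₁) * n) := by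
    have h1 : Tendsto (fun n : ℕ => Real.exp ((l₂ - l₁) * n)) atTop atTop :=
      Real.tendsto_exp_atTop.comp (tendsto_natCast_atTop_atTop.const_mul_atTop (by linarith))
    exact h1.eventually_ge_atTop _
  filter_upwards [hfl.eventually hF, hfl2.eventually hF, hsmall, eventually_ge_atTop 2] with
    n h1 h2 h3 h4
  set X : ℕ := ⌊Real.exp n⌋₊ with hX
  have hn2 : (2 : ℝ) ≤ n := by exact_mod_cast h4
  have he4 : (4 : ℝ) ≤ Real.exp n := by
    have e1 : Real.exp 2 ≤ Real.exp n := Real.exp_le_exp.2 hn2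
    have e2 : Real.exp 2 = Real.exp 1 * Real.exp 1 := by rw [← Real.exp_add]; norm_num
    have e3 := Real.exp_one_gt_d9
    nlinarith
  have hX1 : (X : ℝ) ≤ Real.exp n := Nat.floor_le (Real.exp_pos _).le
  have hX2 : Real.exp n < X + 1 := Nat.lt_floor_add_one _
  have hX0 : (3 : ℝ) < X := by linarith
  have hXn : 1 ≤ X := by
    have : (0 : ℝ) < X := by linarith
    exact_mod_cast this
  set T₁ := (Finset.Icc X (2 * X)).filter fun n => ¬ P n
  set T₂ := (Finset.Icc (2 * X) (2 * (2 * X))).filter fun n => ¬ P n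
  have hsub : (US fun n => ¬ P n) ∩ Ioc (n : ℝ) (n + 1) ⊆
      ⋃ m ∈ T₁ ∪ T₂, {u : ℝ | ⌊Real.exp u⌋₊ = m} := by
    rintro u ⟨hu, hu1, hu2⟩
    have e1 : X ≤ ⌊Real.exp u⌋₊ := Nat.floor_le_floor (Real.exp_le_exp.2 hu1.le)
    have e2 : ⌊Real.exp u⌋₊ ≤ 2 * (2 * X) := by
      have e3 : (⌊Real.exp u⌋₊ : ℝ) ≤ Real.exp u := Nat.floor_le (Real.exp_pos _).le
      have e4 : Real.exp u ≤ Real.exp n * Real.exp 1 := by
        rw [← Real.exp_add]
        exact Real.exp_le_exp.2 hu2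
      have e5 := Real.exp_one_lt_d9
      have e6 : (⌊Real.exp u⌋₊ : ℝ) ≤ ((2 * (2 * X) : ℕ) : ℝ) := by
        push_cast
        nlinarith
      exact_mod_cast e6
    simp only [mem_iUnion]
    refine ⟨⌊Real.exp u⌋₊, ?_, rfl⟩
    rw [Finset.mem_union]
    by_cases h5 : ⌊Real.exp u⌋₊ ≤ 2 * X
    · exact Or.inl (Finset.mem_filter.2 ⟨Finset.mem_Icc.2 ⟨e1, h5⟩, hu⟩)
    · exact Or.inr (Finset.mem_filter.2 ⟨Finset.mem_Icc.2 ⟨by omega, e2⟩, hu⟩)
  have hcell : ∀ m ∈ T₁ ∪ T₂, volume {u : ℝ | ⌊Real.exp u⌋₊ = m} ≤ ENNReal.ofReal (1 / X) := by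
    intro m hm
    have hmX : X ≤ m := by
      rcases Finset.mem_union.1 hm with h | h
      · exact (Finset.mem_Icc.1 (Finset.mem_filter.1 h).1).1
      · have := (Finset.mem_Icc.1 (Finset.mem_filter.1 h).1).1
        omega
    rw [vol_cell (hXn.trans hmX)]
    refine ENNReal.ofReal_le_ofReal ((log_succ_sub (hXn.trans hmX)).2.trans ?_)
    exact one_div_le_one_div_of_le (by linarith) (by exact_mod_cast hmX)
  have hcount : ((T₁ ∪ T₂).card : ℝ) ≤ 6 * (X : ℝ) ^ (1 - l₂) := by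
    have e1 : ((T₁ ∪ T₂).card : ℝ) ≤ (T₁.card : ℝ) + T₂.card := by
      exact_mod_cast Finset.card_union_le T₁ T₂
    have e2 : ((2 * X : ℕ) : ℝ) ^ (1 - l₂) ≤ 2 * (X : ℝ) ^ (1 - l₂) := by
      push_cast
      rw [Real.mul_rpow (by norm_num) (Nat.cast_nonneg X)]
      refine mul_le_mul_of_nonneg_right ?_ (by positivity)
      calc (2 : ℝ) ^ (1 - l₂) ≤ 2 ^ (1 : ℝ) :=
            Real.rpow_le_rpow_of_exponent_le (by norm_num) (by linarith)
        _ = 2 := Real.rpow_one 2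
    linarith
  calc volume ((US fun n => ¬ P n) ∩ Ioc (n : ℝ) (n + 1))
      ≤ volume (⋃ m ∈ T₁ ∪ T₂, {u : ℝ | ⌊Real.exp u⌋₊ = m}) := measure_mono hsub
    _ ≤ ∑ m ∈ T₁ ∪ T₂, volume {u : ℝ | ⌊Real.exp u⌋₊ = m} := measure_biUnion_finset_le _ _
    _ ≤ ∑ _m ∈ T₁ ∪ T₂, ENNReal.ofReal (1 / X) := Finset.sum_le_sum hcell
    _ = ENNReal.ofReal ((T₁ ∪ T₂).card * (1 / X)) := by
        rw [Finset.sum_const, nsmul_eq_mul, ENNReal.ofReal_mul (by positivity),
          ENNReal.ofReal_natCast]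
    _ ≤ ENNReal.ofReal (Real.exp (-(l₁ * n))) := by
        refine ENNReal.ofReal_le_ofReal ?_
        have e1 : (X : ℝ) ^ (1 - l₂) * (1 / X) = (X : ℝ) ^ (-l₂) := by
          rw [Real.rpow_sub (by linarith), Real.rpow_one, Real.rpow_neg (by linarith)]
          field_simp
        have e2 : (X : ℝ) ^ (-l₂) ≤ (Real.exp n / 2) ^ (-l₂) :=
          Real.rpow_le_rpow_of_nonpos (by positivity) (by linarith) (by linarith)
        have e3 : (Real.exp n / 2) ^ (-l₂) = Real.exp (-(l₂ * n)) * 2 ^ l₂ := by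
          rw [Real.div_rpow (Real.exp_pos _).le (by norm_num), ← Real.exp_mul,
            Real.rpow_neg (by norm_num : (0 : ℝ) ≤ 2), div_inv_eq_mul]
          congr 2
          ring
        calc ((T₁ ∪ T₂).card : ℝ) * (1 / X) ≤ 6 * (X : ℝ) ^ (1 - l₂) * (1 / X) := by gcongr
          _ = 6 * (X : ℝ) ^ (-l₂) := by rw [mul_assoc, e1]
          _ ≤ 6 * (Real.exp (-(l₂ * n)) * 2 ^ l₂) := by
              rw [← e3]
              linarith
          _ = (6 * 2 ^ l₂) * Real.exp (-(l₂ * n)) := by ring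
          _ ≤ Real.exp ((l₂ - l₁) * n) * Real.exp (-(l₂ * n)) :=
              mul_le_mul_of_nonneg_right h3 (Real.exp_pos _).le
          _ = Real.exp (-(l₁ * n)) := by
              rw [← Real.exp_add]
              congr 1
              ring

/-- every short interval contains a good integer -/
theorem near_good {P : ℕ → Prop} {l : ℝ} (h : Out l P) (hl : 0 ≤ l) :
    ∀ᶠ n : ℕ in atTop, ∃ m : ℕ, n ≤ m ∧ m ≤ 2 * n ∧ (m : ℝ) - n ≤ (n : ℝ) ^ (1 - l) + 1 ∧ P m := by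
  classical
  filter_upwards [h, eventually_ge_atTop 1] with n h1 hn
  have hn1 : (1 : ℝ) ≤ n := by exact_mod_cast hn
  set k : ℕ := ⌈(n : ℝ) ^ (1 - l)⌉₊ with hk
  have hk1 : (n : ℝ) ^ (1 - l) ≤ k := Nat.le_ceil _
  have hk2 : (k : ℝ) < (n : ℝ) ^ (1 - l) + 1 := Nat.ceil_lt_add_one (by positivity)
  have hkn : k ≤ n := by
    rw [hk, Nat.ceil_le]
    calc (n : ℝ) ^ (1 - l) ≤ (n : ℝ) ^ (1 : ℝ) :=
          Real.rpow_le_rpow_of_exponent_le hn1 (by linarith)
      _ = n := Real.rpow_one _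
  by_contra hcon
  push Not at hcon
  have h2 : Finset.Icc n (n + k) ⊆ (Finset.Icc n (2 * n)).filter fun n => ¬ P n := by
    intro m hm
    rw [Finset.mem_Icc] at hm
    rw [Finset.mem_filter, Finset.mem_Icc]
    refine ⟨⟨hm.1, by omega⟩, hcon m hm.1 (by omega) ?_⟩
    have h3 : (m : ℝ) ≤ n + k := by exact_mod_cast hm.2
    linarith
  have h3 := Finset.card_le_card h2
  rw [Nat.card_Icc] at h3
  have h4 : ((k + 1 : ℕ) : ℝ) ≤ (((Finset.Icc n (2 * n)).filter fun n => ¬ P n).card : ℝ) := by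
    refine Nat.cast_le.2 (le_trans (by omega) h3)
  push_cast at h4
  have h5 : (((Finset.Icc n (2 * n)).filter fun n => ¬ P n).card : ℝ) ≤ (n : ℝ) ^ (1 - l) := by
    convert h1
  linarith

variable {X : Type} {d : ℕ} {N : X → ℕ} {α : X → Fin d → ℂ}

/-- at most `D₀` primes of each norm -/
def Fib (N : X → ℕ) (D₀ : ℕ) : Prop := ∀ (m : ℕ) (G : Finset X), (∀ v ∈ G, N v = m) → G.card ≤ D₀

/-- **the variation of the logarithms of the products** -/
theorem gap (E : Sys N α) {D₀ : ℕ} (hD : Fib N D₀) {n m : ℕ} (hn : 1 ≤ n) (hnm : n ≤ m) :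
    |LP N α m - LP N α n| ≤ 4 * d * D₀ * (((m : ℝ) - n) * (n : ℝ) ^ (-(1 / 2 : ℝ))) := by
  classical
  have hn0 : (0 : ℝ) < n := by exact_mod_cast hn
  have hsub : (E.fin_le (n : ℝ)).toFinset ⊆ (E.fin_le (m : ℝ)).toFinset := by
    intro v hv
    rw [Set.Finite.mem_toFinset] at hv ⊢
    exact le_trans (show (N v : ℝ) ≤ n from hv) (by exact_mod_cast hnm)
  set G : Finset X := (E.fin_le (m : ℝ)).toFinset \ (E.fin_le (n : ℝ)).toFinset with hG
  have h1 : LP N α m - LP N α n = ∑ v ∈ G, cv N α v := by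
    rw [lp_eq E, lp_eq E, hG, Finset.sum_sdiff_eq_sub hsub]
  have hmem : ∀ v ∈ G, n < N v ∧ N v ≤ m := by
    intro v hv
    rw [hG, Finset.mem_sdiff, Set.Finite.mem_toFinset, Set.Finite.mem_toFinset] at hv
    have h2 : (N v : ℝ) ≤ m := hv.1
    have h3 : ¬ (N v : ℝ) ≤ n := hv.2
    exact ⟨by exact_mod_cast not_le.1 h3, by exact_mod_cast h2⟩
  have hcard : (G.card : ℝ) ≤ D₀ * ((m : ℝ) - n) := by
    have h2 : G.card ≤ D₀ * (G.image N).card := by
      refine Finset.card_le_mul_card_image G D₀ fun b _ => ?_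
      exact hD b _ fun v hv => (Finset.mem_filter.1 hv).2
    have h3 : G.image N ⊆ Finset.Ioc n m := by
      intro b hb
      obtain ⟨v, hv, rfl⟩ := Finset.mem_image.1 hb
      exact Finset.mem_Ioc.2 (hmem v hv)
    have h4 := Finset.card_le_card h3
    rw [Nat.card_Ioc] at h4
    have h5 : G.card ≤ D₀ * (m - n) := h2.trans (Nat.mul_le_mul_left _ h4)
    have h6 : (G.card : ℝ) ≤ ((D₀ * (m - n) : ℕ) : ℝ) := by exact_mod_cast h5
    rwa [Nat.cast_mul, Nat.cast_sub hnm] at h6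
  rw [h1]
  refine (Finset.abs_sum_le_sum_abs _ _).trans ?_
  calc ∑ v ∈ G, |cv N α v| ≤ ∑ _v ∈ G, 4 * d * (n : ℝ) ^ (-(1 / 2 : ℝ)) := by
        refine Finset.sum_le_sum fun v hv => (E.cv_abs v).trans ?_
        refine mul_le_mul_of_nonneg_left ?_ (by positivity)
        refine Real.rpow_le_rpow_of_nonpos hn0 ?_ (by norm_num)
        exact_mod_cast (hmem v hv).1.le
    _ = G.card * (4 * d * (n : ℝ) ^ (-(1 / 2 : ℝ))) := by rw [Finset.sum_const, nsmul_eq_mul]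
    _ ≤ D₀ * ((m : ℝ) - n) * (4 * d * (n : ℝ) ^ (-(1 / 2 : ℝ))) :=
        mul_le_mul_of_nonneg_right hcard (by positivity)
    _ = _ := by ring

/-- **pointwise bound from a bound outside an exceptional set** -/
theorem point (E : Sys N α) {D₀ : ℕ} (hD : Fib N D₀) {l : ℝ} (hl : 0 ≤ l) {b : ℕ → ℝ} {t : ℝ}
    (ht : |t| = 1) (h : Out l fun n => t * LP N α n ≤ b n) : ∃ K : ℝ, 0 ≤ K ∧
      ∀ᶠ n : ℕ in atTop, ∃ m : ℕ, n ≤ m ∧ m ≤ 2 * n ∧
        t * LP N α n ≤ b m + K * ((n : ℝ) ^ (1 / 2 - l) + 1) := by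
  refine ⟨4 * d * D₀, by positivity, ?_⟩
  filter_upwards [near_good h hl, eventually_ge_atTop 1] with n h1 hn
  obtain ⟨m, h2, h3, h4, h5⟩ := h1
  refine ⟨m, h2, h3, ?_⟩
  have hn1 : (1 : ℝ) ≤ n := by exact_mod_cast hn
  have hn0 : (0 : ℝ) < n := by linarith
  have h6 := gap E hD hn h2 (α := α)
  have h7 : |t * LP N α n - t * LP N α m| ≤ 4 * d * D₀ * ((n : ℝ) ^ (1 / 2 - l) + 1) := by
    rw [← mul_sub, abs_mul, ht, one_mul, abs_sub_comm]
    refine h6.trans (mul_le_mul_of_nonneg_left ?_ (by positivity))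
    calc ((m : ℝ) - n) * (n : ℝ) ^ (-(1 / 2 : ℝ)) ≤ ((n : ℝ) ^ (1 - l) + 1) *
          (n : ℝ) ^ (-(1 / 2 : ℝ)) := mul_le_mul_of_nonneg_right h4 (by positivity)
      _ = (n : ℝ) ^ (1 / 2 - l) + (n : ℝ) ^ (-(1 / 2 : ℝ)) := by
          rw [add_mul, one_mul, ← Real.rpow_add hn0]
          congr 2
          ring
      _ ≤ (n : ℝ) ^ (1 / 2 - l) + 1 := by
          have := Real.rpow_le_one_of_one_le_of_nonpos hn1 (by norm_num : -(1 / 2 : ℝ) ≤ 0)
          linarith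
  have h8 := (abs_le.1 h7).2
  linarith

end Pool.Agent.W5h26.OS
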